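import Mathlib
import Pool.Agent.TH776.FM.Defs

/-!
# Weil numbers for which combinations of conjugate slope functions have few values prime to `r`:
# definitions
-/

namespace Pool.Agent.TH776.FC

open NumberField Module Pool.Agent.H204R3.CM Pool.Agent.W527.TateRing Pool.Agent.TH776.FS
  Pool.Agent.TH776.FM

variable {p m : ℕ} [Fact p.Prime]

/-- `v` is an integral valued combination, with real coefficients, of conjugates of the deviations
of the slopes: of functions `τ ↦ dev (σ τ)`, `σ` automorphisms of the algebraic closure of `ℚ_p` (as a
field; they are not supposed to be continuous), where `dev τ` is `2 v(τ π) - m`. -/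
def IsCombination (W : WeilNumber p m) (v : (W.K →+* PadicAlgCl p) → ℤ) : Prop :=
  ∃ (n : ℕ) (σ : Fin n → (PadicAlgCl p ≃+* PadicAlgCl p)) (a : Fin n → ℝ),
    ∀ τ : W.K →+* PadicAlgCl p,
      (v τ : ℝ) = ∑ k, a k * dev W ((σ k : PadicAlgCl p →+* PadicAlgCl p).comp τ)

/-- The values of some such function that are not divisible by `r` are exactly those at the pairs of
conjugate embeddings of `x` and of `y`. -/
def LinkedBy (W : WeilNumber p m) (r : ℕ) (x y : W.K →+* PadicAlgCl p) : Prop :=
  ∃ v : (W.K →+* PadicAlgCl p) → ℤ, IsCombination W v ∧ ∀ τ, ¬ (r : ℤ) ∣ v τ ↔ InPairs x y τ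

/-- For some prime number `r` there is a pair linked to itself (that is, some combination has only
one pair of values prime to `r`), or only the rational numbers are elements of the maximal real
subfield on which all linked embeddings agree; or the even values of some combination are those at
one pair of embeddings, or at two pairs whose embeddings agree on no element of the maximal real
subfield except the rational numbers (and in the latter case `K` has no real quadratic subfield if its
degree is four modulo eight). -/
def FewCombined (W : WeilNumber p m) : Prop :=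
  (∃ r : ℕ, r.Prime ∧ ((∃ x, LinkedBy W r x x) ∨
    ∀ t : W.K, IsCMField.complexConj W.K t = t → (∀ x y, LinkedBy W r x y → x t = y t) →
      ∃ q : ℚ, t = q)) ∨
  ∃ (v : (W.K →+* PadicAlgCl p) → ℤ) (x y : W.K →+* PadicAlgCl p), IsCombination W v ∧
    (∀ τ, Even (v τ) ↔ InPairs x y τ) ∧
    (x = y ∨ OnlyRat x y ∧ (finrank ℚ W.K % 8 = 4 →
      ∀ F : IntermediateField ℚ W.K, finrank ℚ F = 2 → IsCM F))

end Pool.Agent.TH776.FC
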