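import Pool.Agent.TH776.FM.Main
import Pool.Agent.TH776.FM.Slopes
import Pool.Agent.TH776.FC.Defs

/-!
# Weil numbers for which combinations of conjugate slope functions have few values prime to `r`
-/

set_option linter.unusedSectionVars false
set_option linter.unusedVariables false

namespace Pool.Agent.TH776.FC

open NumberField Module Equiv Pool.Agent.H204R3.CM Pool.Agent.H977R3.WN Pool.Agent.W527
  Pool.Agent.W527.Dec Pool.Agent.W527.TateRing Pool.Agent.H485R3.Exact Pool.Agent.TH776.FS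
  Pool.Agent.TH776.FM

noncomputable section

section weil

variable {p m : ℕ} [hp : Fact p.Prime] {W : WeilNumber p m}

theorem comb_of_pencil {v : (W.K →+* PadicAlgCl p) → ℤ} (hv : IsPencil W v) :
    IsCombination W v := by
  obtain ⟨σ, a, b, h⟩ := hv
  refine ⟨2, ![RingEquiv.refl _, σ], ![a, b], fun τ => ?_⟩
  rw [Fin.sum_univ_two, h]
  have h1 : (((![RingEquiv.refl _, σ] : Fin 2 → (PadicAlgCl p ≃+* PadicAlgCl p)) 0 :
      PadicAlgCl p ≃+* PadicAlgCl p) : PadicAlgCl p →+* PadicAlgCl p).comp τ = τ :=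
    RingHom.ext fun x => rfl
  rw [h1]
  rfl

theorem comb_odd {v : (W.K →+* PadicAlgCl p) → ℤ} (hv : IsCombination W v)
    (τ : W.K →+* PadicAlgCl p) : v (cbar τ) = - v τ := by
  obtain ⟨n, σ, a, h⟩ := hv
  have h1 := h (cbar τ)
  have h2 := h τ
  have h3 : ∀ k, (σ k : PadicAlgCl p →+* PadicAlgCl p).comp (cbar τ) =
      cbar ((σ k : PadicAlgCl p →+* PadicAlgCl p).comp τ) := fun k => rfl
  have h4 : ((v (cbar τ) : ℤ) : ℝ) = ((- v τ : ℤ) : ℝ) := by
    push_cast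
    rw [h1, h2, ← Finset.sum_neg_distrib]
    refine Finset.sum_congr rfl fun k _ => ?_
    rw [h3, dev_cbar]
    ring
  exact_mod_cast h4

variable {L : Type} [Field L] [NumberField L] [IsGalois ℚ L]

theorem rel_comb (jp : L →+* PadicAlgCl p) {w : (W.K →+* L) → ℤ} {D : ℝ} (hD : D ≠ 0)
    (hw : ∀ φ, (w φ : ℝ) = D * dev W (jp.comp φ)) {v : (W.K →+* PadicAlgCl p) → ℤ}
    (hv : IsCombination W v) {c : (W.K →+* L) → ℤ} (hc : IsRel w c) :
    IsRel (fun φ => v (jp.comp φ)) c := by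
  obtain ⟨n, σ, a, h⟩ := hv
  choose k hk using fun i => lift_aut jp (σ i)
  refine ⟨hc.1, fun g => ?_⟩
  have h1 : ∀ g : L ≃ₐ[ℚ] L, ∑ φ : W.K →+* L, (c φ : ℝ) * dev W (jp.comp (g • φ)) = 0 := by
    intro g
    have h2 : ((∑ φ : W.K →+* L, c φ * w (g • φ) : ℤ) : ℝ) =
        D * ∑ φ : W.K →+* L, (c φ : ℝ) * dev W (jp.comp (g • φ)) := by
      push_cast
      rw [Finset.mul_sum]
      refine Finset.sum_congr rfl fun φ _ => ?_
      rw [hw]
      ring
    rw [hc.2 g, Int.cast_zero] at h2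
    exact (mul_eq_zero.1 h2.symm).resolve_left hD
  have h3 : ((∑ φ : W.K →+* L, c φ * v (jp.comp (g • φ)) : ℤ) : ℝ) =
      ∑ i, a i * ∑ φ : W.K →+* L, (c φ : ℝ) * dev W (jp.comp ((k i * g) • φ)) := by
    push_cast
    simp_rw [Finset.mul_sum]
    rw [Finset.sum_comm]
    refine Finset.sum_congr rfl fun φ _ => ?_
    rw [h, Finset.mul_sum]
    refine Finset.sum_congr rfl fun i _ => ?_
    rw [comp_smul (hk i), mul_smul]
    ring
  have h4 : ((∑ φ : W.K →+* L, c φ * v (jp.comp (g • φ)) : ℤ) : ℝ) = 0 := by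
    rw [h3]
    exact Finset.sum_eq_zero fun i _ => by rw [h1, mul_zero]
  exact_mod_cast h4

theorem propMod_of_combined (hW : FewCombined W) {j : L →+* ℂ}
    (h : ∀ ψ : W.K →+* ℂ, ∃ φ : W.K →+* L, j.comp φ = ψ) (jp : L →+* PadicAlgCl p)
    {κc : L ≃ₐ[ℚ] L} (hκc : ∀ φ : W.K →+* L, κc • φ = cbar φ)
    {w : (W.K →+* L) → ℤ} {D : ℝ} (hD : D ≠ 0) (hw : ∀ φ, (w φ : ℝ) = D * dev W (jp.comp φ)) :
    ∃ r : ℕ, r.Prime ∧ Prop_mod w r := by
  rcases hW with ⟨r, hr, hW⟩ | ⟨v, x, y, hv, hsup, hxy⟩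
  · refine ⟨r, hr, ?_⟩
    rcases hW with ⟨x, v, hv, hsup⟩ | hS
    · refine prop_zero hr fun f hf φ => ?_
      obtain ⟨x, rfl⟩ := exists_lift_padic j h jp x
      obtain ⟨g, rfl⟩ := MulAction.exists_smul_eq (L ≃ₐ[ℚ] L) x φ
      refine dvd_of_single (v := fun φ => v (jp.comp φ)) (fun φ => ?_) hr (fun φ hφ => ?_) ?_
        (rel_comb jp hD hw hv hf) g
      · rw [cbar_comp]
        exact comb_odd hv _
      · have h1 := (inPairs_comp jp x x φ).1 ((hsup _).1 hφ)
        rcases h1 with h1 | h1 | h1 | h1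
        · exact Or.inl h1
        · exact Or.inr h1
        · exact Or.inl h1
        · exact Or.inr h1
      · exact (hsup _).2 (Or.inl rfl)
    · refine prop_links hκc hr fun t ht hl => hS t ht fun x y hxy => ?_
      obtain ⟨x, rfl⟩ := exists_lift_padic j h jp x
      obtain ⟨y, rfl⟩ := exists_lift_padic j h jp y
      refine congrArg jp (hl x y fun f hf g => ?_)
      obtain ⟨v, hv, hsup⟩ := hxy
      refine lk_of_support (v := fun φ => v (jp.comp φ)) (fun φ => ?_) hr (fun φ => ?_)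
        (rel_comb jp hD hw hv hf) g
      · rw [cbar_comp]
        exact comb_odd hv _
      · rw [hsup, inPairs_comp]
  · obtain ⟨x, rfl⟩ := exists_lift_padic j h jp x
    obtain ⟨y, rfl⟩ := exists_lift_padic j h jp y
    refine ⟨2, Nat.prime_two, propMod_mono (v := fun φ => v (jp.comp φ))
      (fun c hc => rel_comb jp hD hw hv hc) ?_⟩
    refine propMod_of_fewEven hκc h (fun φ => ?_) (x := x) (y := y) (fun φ => ?_) ?_
    · rw [cbar_comp]
      exact comb_odd hv _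
    · rw [hsup, inPairs_comp]
    · rcases hxy with h1 | ⟨h1, h2⟩
      · exact Or.inl (comp_inj jp h1)
      · exact Or.inr ⟨onlyRat_comp jp h1, h2⟩

/-- A nonzero relation gives a supersingular norm to an imaginary quadratic field. -/
theorem hasWeil_of_rel (hW : FewCombined W) {j : L →+* ℂ}
    (h : ∀ ψ : W.K →+* ℂ, ∃ φ : W.K →+* L, j.comp φ = ψ) (jp : L →+* PadicAlgCl p)
    {κc : L ≃ₐ[ℚ] L} (hκc : ∀ φ : W.K →+* L, κc • φ = cbar φ)
    {w : (W.K →+* L) → ℤ} {D : ℝ} (hD : D ≠ 0)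
    (hw : ∀ φ, (w φ : ℝ) = D * dev W (jp.comp φ))
    (hodd : ∀ φ, w (cbar φ) = - w φ)
    (hc : ∃ c, IsRel w c ∧ ∃ φ, c φ ≠ 0) : HasWeil W := by
  obtain ⟨r, hr, hpr⟩ := propMod_of_combined hW h jp hκc hD hw
  obtain ⟨c, hc, φ₀, hφ₀⟩ := hc
  obtain ⟨T, h2, hT, htr⟩ := quad_of_rel h hκc hodd hr hpr hc hφ₀
  exact hasWeil_of_tr h jp hD hw h2 hT htr

theorem combined_of_few (hW : FewValues W ∨ FewEvenValues W) : FewCombined W := by
  rcases hW with ⟨r, hr, hW⟩ | ⟨v, x, y, hv, h1, h2⟩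
  · refine Or.inl ⟨r, hr, ?_⟩
    rcases hW with ⟨x, v, hv, h1⟩ | hW
    · exact Or.inl ⟨x, v, comb_of_pencil hv, h1⟩
    · refine Or.inr fun t ht hl => hW t ht fun x y hxy => ?_
      obtain ⟨v, hv, h1⟩ := hxy
      exact hl x y ⟨v, comb_of_pencil hv, h1⟩
  · exact Or.inr ⟨v, x, y, comb_of_pencil hv, h1, h2⟩

end weil

section main

variable {p m : ℕ} [hp : Fact p.Prime] {ι : Type} [Fintype ι] {W : ι → WeilNumber p m}

/-- The ring of Tate classes. -/
theorem isTate_iff_ring (hW : ∀ i, FewCombined (W i)) (hind : Independent W)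
    {Ω : Type} [Field Ω]
    [IsAlgClosed Ω] [CharZero Ω] {A : ι → FrobSpace Ω} (hA : ∀ i, IsOfType (A i) (W i)) {n : ℕ}
    (hn : 2 ≤ n ∨ (1 ≤ n ∧ ∀ i, 4 ∣ finrank ℚ (W i).K)) {J : Type} [Fintype J] (t : J → ι)
    {κ' : Type} [Finite κ'] (hκ' : Even (Nat.card κ')) (f : Coh (productOf A t) κ') :
    IsTate (p ^ m) f ↔ TRing (p ^ m) n A (fun i => HasWeil (W i)) (productOf A t) κ' f := by
  classical
  have := Fintype.ofFinite κ'
  refine ⟨fun hf => ?_, fun hf => isTate_of_ring hf⟩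
  obtain ⟨D, N, κ, u, hD, hN, hκ, hNκ, hu⟩ := exists_weights W
  obtain ⟨L, _, _, j, h⟩ := exists_galois (fun i => (W i).K)
  let jp : L →+* PadicAlgCl p := ((IsAlgClosed.lift : L →ₐ[ℚ] PadicAlgCl p) : L →+* PadicAlgCl p)
  let jΩ : L →ₐ[ℚ] Ω := IsAlgClosed.lift
  have hlift : ∀ i, ∀ σ : (W i).K →+* Ω, ∃ φ : (W i).K →+* L, (jΩ : L →+* Ω).comp φ = σ := by
    intro i
    have hinj : Function.Injective (fun φ : (W i).K →+* L => (jΩ : L →+* Ω).comp φ) := by
      intro φ φ' hh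
      exact RingHom.ext fun x => jΩ.injective (RingHom.congr_fun hh x)
    have hbij : Function.Bijective (fun φ : (W i).K →+* L => (jΩ : L →+* Ω).comp φ) := by
      rw [Fintype.bijective_iff_injective_and_card]
      exact ⟨hinj, by rw [Pool.Agent.H204R3.CM.card_emb j (h i), Embeddings.card]⟩
    exact hbij.2
  obtain ⟨κc, hκc⟩ := exists_lift j (starRingAut : ℂ ≃+* ℂ)
  have hκc' : ∀ x, starRingEnd ℂ (j x) = j (κc x) := hκc
  have hκc'' : ∀ i, ∀ φ : (W i).K →+* L, κc • φ = cbar φ := by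
    intro i φ
    apply Pool.Agent.W527.comp_injective j
    change j.comp (κc • φ) = j.comp (cbar φ)
    rw [comp_cbar]
    exact RingHom.ext fun x => (hκc' (φ x)).symm
  have hodd : ∀ i, ∀ φ : (W i).K →+* L, ww N u jp i (cbar φ) = - ww N u jp i φ :=
    fun i φ => ww_odd hκ hu jp i φ
  have hDr : (D : ℝ) ≠ 0 := by exact_mod_cast hD.ne'
  have hwD : ∀ i, ∀ φ : (W i).K →+* L, ((ww N u jp i φ : ℤ) : ℝ) =
      (D : ℝ) * dev (W i) (jp.comp φ) := by
    intro i φ
    unfold dev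
    rw [hu]
    unfold ww
    have h3 : (N i : ℝ) = κ i * D := by exact_mod_cast hNκ i
    push_cast
    rw [h3]
    ring
  have hindL : IndepL L (fun i => (W i).K) := by
    intro i
    obtain ⟨σ, h1, h2⟩ := hind i
    obtain ⟨g, hg⟩ := exists_lift j σ
    refine ⟨g, fun φ => ?_, fun i' hi' φ => ?_⟩
    · apply Pool.Agent.W527.comp_injective j
      change j.comp (g • φ) = j.comp (cbar φ)
      rw [comp_cbar, ← h1 (j.comp φ), lifts_comp j hg]
    · apply Pool.Agent.W527.comp_injective j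
      change j.comp (g • φ) = j.comp φ
      rw [← lifts_comp j hg, h2 i' hi']
  have habs : ∀ i c, IsRel (ww N u jp i) c → ∀ φ φ' : (W i).K →+* L, |c φ| = |c φ'| :=
    fun i => abs_of_propMod (propMod_of_combined (hW i) (h i) jp (hκc'' i) hDr (hwD i))
  have hblocks : HasBlocks (L := L) (fun i => HasWeil (W i)) (ww N u jp) := by
    intro K _ _ μ hμ
    obtain ⟨S, hS, hsum, hS'⟩ := exists_block hodd hindL habs μ hμ
    refine ⟨S, hS, hsum, ?_⟩
    rcases hS' with h1 | ⟨i, h1, h2, h3, h4⟩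
    · exact Or.inl h1
    · exact Or.inr ⟨i, hasWeil_of_rel (hW i) (h i) jp (hκc'' i) hDr (hwD i) (hodd i) h1, h2, h3⟩
  have E : ∀ i, EB (A i) (W i) := fun i => (exists_EB (hA i)).some
  refine ring_of_mono E t hf fun x hx ξ hξ => ?_
  obtain ⟨s, hs, hrel⟩ := hx
  choose φ hφ using fun k => hlift (ty E (x k)).1 (ty E (x k)).2
  have hei : ∀ k, ei (ty E (x k)) = jΩ (φ k (W (ty E (x k)).1).π) := by
    intro k
    unfold ei
    rw [← hφ k]
    rfl
  let μ : κ' → Σ i, ((W i).K →+* L) := fun k => ⟨(ty E (x k)).1, φ k⟩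
  have hrel' : PP μ ^ (2 * s) = ((p ^ m : ℕ) : L) ^ (s * Fintype.card κ') := by
    apply jΩ.injective
    unfold PP
    rw [map_pow, map_prod, map_pow, map_natCast, ← hrel]
    congr 1
    exact Finset.prod_congr rfl fun k _ => (hei k).symm
  refine mon_of_blocks (B := fun i => HasWeil (W i)) hD hNκ hu jp (jΩ : L →+* Ω) E hblocks ?_
    _ κ' μ rfl (by rwa [Nat.card_eq_fintype_card] at hκ')
    (fun g => sum_of_rel hD hNκ hu jp μ hs hrel' g) ξ (fun k v => ?_)
  · rcases hn with h1 | ⟨h1, h2⟩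
    · exact Or.inl h1
    · refine Or.inr ⟨h1, fun K _ μ S hS => even_balanced hodd hindL habs (fun i => ?_) _ S μ rfl hS⟩
      rw [Pool.Agent.H204R3.CM.card_emb j (h i)]
      exact h2 i
  · rw [hξ k v, hei k]
    rfl

end main

end

end Pool.Agent.TH776.FC
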